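import Mathlib
import Pool.Agent.Helper11.QR.PartC

set_option autoImplicit false

namespace Pool.Agent.Results.MP_e0aac0_nt.LogBoxReduction

open Finset

/-- The logarithmic law of `Ω` at `N`. -/
noncomputable def logLaw (N t : ℕ) : ℝ :=
  (∑ n ∈ (Finset.Icc 1 N).filter (fun n => ArithmeticFunction.cardFactors n = t), 1 / (n : ℝ)) /
    ∑ n ∈ Finset.Icc 1 N, (1 / (n : ℝ))

/-- The logarithmic mean of `F (Ω(n), ..., Ω(n + k - 1))` over `n ≤ N`. -/
noncomputable def logMean (k N : ℕ) (F : (Fin k → ℕ) → ℝ) : ℝ :=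
  (∑ n ∈ Finset.Icc 1 N, (1 / (n : ℝ)) * F (fun i => ArithmeticFunction.cardFactors (n + i))) /
    ∑ n ∈ Finset.Icc 1 N, (1 / (n : ℝ))

/-- The mean of `F` under the product of `k` copies of the logarithmic law (which is supported on
`t ≤ N`). -/
noncomputable def logIndep (k N : ℕ) (F : (Fin k → ℕ) → ℝ) : ℝ :=
  ∑ ℓ ∈ Fintype.piFinset (fun _ : Fin k => Finset.range (N + k + 1)),
    (∏ i, logLaw N (ℓ i)) * F ℓ

/-- Independence on product sets, up to `δ`, for the logarithmic means at `N`. -/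
def LogBoxes (k N : ℕ) (δ : ℝ) : Prop :=
  ∀ A : Fin k → Finset ℕ,
    |(∑ n ∈ (Finset.Icc 1 N).filter
        (fun n => ∀ i : Fin k, ArithmeticFunction.cardFactors (n + (i : ℕ)) ∈ A i),
          (1 / (n : ℝ))) / (∑ n ∈ Finset.Icc 1 N, (1 / (n : ℝ))) -
      ∏ i : Fin k, ((∑ n ∈ (Finset.Icc 1 N).filter
        (fun n => ArithmeticFunction.cardFactors n ∈ A i), (1 / (n : ℝ))) /
          (∑ n ∈ Finset.Icc 1 N, (1 / (n : ℝ))))| ≤ δ

/-- For logarithmic means and all large `N`, independence on product sets implies independence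
in total variation. -/
theorem result (k : ℕ) (hk : 1 ≤ k) (ε : ℝ) (hε : 0 < ε) :
    ∃ δ : ℝ, 0 < δ ∧ ∃ N₀ : ℕ, ∀ N ≥ N₀, LogBoxes k N δ →
      ∀ F : (Fin k → ℕ) → ℝ, (∀ ℓ, |F ℓ| ≤ 1) → |logMean k N F - logIndep k N F| ≤ ε :=
  Helper11.QR.partC k hk ε hε

end Pool.Agent.Results.MP_e0aac0_nt.LogBoxReduction
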