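import Mathlib
import Pool.Agent.Helper13.Om.Assemble

set_option autoImplicit false

namespace Pool.Agent.Results.MP_e0aac0_nt.OneFullCoordinate

/-- The number of prime factors `p` of `n`, counted with multiplicity, with `p ^ u ≤ N`. -/
def truncOmega (u N n : ℕ) : ℕ := (n.primeFactorsList.filter (fun p => p ^ u ≤ N)).length

/-- Independence of `Ω` at one of `k` consecutive integers from the truncated counts at the
others, and of the truncated counts from each other, in total variation. -/
theorem result (k : ℕ) (i₀ : Fin k) (ε : ℝ) (hε : 0 < ε) :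
    ∃ u₀ : ℕ, ∀ u ≥ u₀, ∃ N₀ : ℕ, ∀ N ≥ N₀, ∀ F : (Fin k → ℕ) → ℝ, (∀ s, |F s| ≤ 1) →
      |1 / (N : ℝ) * ∑ n ∈ Finset.Icc 1 N, F (fun i => if i = i₀ then
          ArithmeticFunction.cardFactors (n + i) else truncOmega u N (n + i)) -
        1 / (N : ℝ) ^ k * ∑ m ∈ Fintype.piFinset (fun _ : Fin k => Finset.Icc 1 N),
          F (fun i => if i = i₀ then ArithmeticFunction.cardFactors (m i)
            else truncOmega u N (m i))| ≤ ε :=
  Helper13.Om.main_trunc k i₀ ε hε

end Pool.Agent.Results.MP_e0aac0_nt.OneFullCoordinate
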