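import Mathlib
import Pool.Agent.Helper13.Om.Noise

set_option autoImplicit false

open Filter

namespace Pool.Agent.Results.MP_e0aac0_nt.ShiftReduction

/-- The joint density at the tuple `ℓ`: the density of the `n ≤ N` with `Ω (n + i) = ℓ i` for
all `i`. -/
noncomputable def joint (k N : ℕ) (ℓ : Fin k → ℕ) : ℝ :=
  (1 / (N : ℝ)) *
      (((Finset.Icc 1 N).filter
        (fun n => ∀ i : Fin k, ArithmeticFunction.cardFactors (n + (i : ℕ)) = ℓ i)).card : ℝ)

/-- For each `k`, the sum of the problem tends to zero if and only if the joint law of `Ω` at `k`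
consecutive integers is asymptotically invariant under the unit shifts in the coordinates other
than `i₀`. -/
theorem result (k : ℕ) (i₀ : Fin k) :
    Tendsto (fun N : ℕ => ∑' ℓ : Fin k → ℕ,
        |(1 / (N : ℝ)) *
            (((Finset.Icc 1 N).filter
              (fun n => ∀ i : Fin k, ArithmeticFunction.cardFactors (n + (i : ℕ)) = ℓ i + 1)).card : ℝ)
          - ∏ i : Fin k,
              ((1 / (N : ℝ)) *
                (((Finset.Icc 1 N).filter
                  (fun n => ArithmeticFunction.cardFactors n = ℓ i + 1)).card : ℝ))|)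
      atTop (nhds 0) ↔
    ∀ i : Fin k, i ≠ i₀ →
      Tendsto (fun N : ℕ => ∑' ℓ : Fin k → ℕ, |joint k N (ℓ + Pi.single i 1) - joint k N ℓ|)
        atTop (nhds 0) :=
  Helper13.Om.reduction_mu k i₀

end Pool.Agent.Results.MP_e0aac0_nt.ShiftReduction
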